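import Pool.Agent.Helper96.SV.Rel

/-!
# Relators of a world with two lines through a point

`D` is a normal set of involutions with `(x y)⁴ = 1`. The letters `0, 1, 2, 3` are in `D`, and so are the products
`0 · 2` and `0 · 3`. `Tm` are terms for elements of `D`; a word is a relator if it is freely conjugate to (the inverse of) `(x y)⁴` or `x²`.
-/

set_option autoImplicit false

namespace Pool.Agent.Helper68.ZL

open Pool.Agent.Helper94.SV.Frame (DLaw)
open Pool.Agent.Helper96.SV (ev ev_append iw ev_iw fr ev_fr r4 ev_r4 two_four conj_inv_mem)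

universe u

variable {G : Type u} [Group G]

/-- terms for elements of `D` -/
inductive Tm
  | l (s : ℕ)
  | q (s : ℕ)
  | j (s : ℕ) (t : Tm)

/-- the word of a term -/
def Tm.wd : Tm → List ℕ
  | .l s => [s]
  | .q s => [0, s]
  | .j s t => s :: (t.wd ++ [s])

/-- the leaves are allowed -/
def Tm.ok : Tm → Bool
  | .l _ => true
  | .q s => Nat.beq s 2 || Nat.beq s 3
  | .j _ t => t.ok

/-- instances of laws -/
inductive Law
  | sq (x : Tm)
  | two (x y : Tm)

/-- the word of a law -/
def Law.wd : Law → List ℕ
  | .sq x => x.wd ++ x.wd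
  | .two x y => r4 (x.wd ++ y.wd)

/-- the law is allowed -/
def Law.ok : Law → Bool
  | .sq x => x.ok
  | .two x y => x.ok && y.ok

/-- the letters satisfy the hypotheses of the world -/
structure World (D : Set G) (f : ℕ → G) : Prop where
  law : DLaw D
  mem : ∀ s, f s ∈ D
  p2 : f 0 * f 2 ∈ D
  p3 : f 0 * f 3 ∈ D

variable {D : Set G} {f : ℕ → G}

theorem World.inv (H : World D f) (s : ℕ) : f s * f s = 1 := H.law.inv _ (H.mem s)

theorem Tm.mem (H : World D f) (t : Tm) (h : t.ok = true) : ev f t.wd ∈ D := by
  induction t with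
  | l s => simpa [Tm.wd, ev] using H.mem s
  | q s =>
    simp only [Tm.ok, Bool.or_eq_true, Nat.beq_eq] at h
    rcases h with rfl | rfl
    · simpa [Tm.wd, ev] using H.p2
    · simpa [Tm.wd, ev] using H.p3
  | j s t ih =>
    have h1 := conj_inv_mem H.law (ih h) (H.inv s)
    simpa [Tm.wd, ev, ev_append] using h1

theorem Law.sound (H : World D f) (L : Law) (h : L.ok = true) : ev f L.wd = 1 := by
  cases L with
  | sq x =>
    rw [Law.wd, ev_append]
    exact H.law.inv _ (x.mem H h)
  | two x y =>
    simp only [Law.ok, Bool.and_eq_true] at h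
    rw [Law.wd, ev_r4, ev_append]
    exact two_four H.law (x.mem H h.1) (y.mem H h.2)

/-- the word `W` is freely conjugate by `p` to the instance `L` or its inverse -/
def chk (W : List ℕ) (L : Law) (p : List ℕ) (o : Bool) : Bool :=
  L.ok && (fr (fun s => s) (iw (fun s => s) p ++ (W ++ (p ++ cond o L.wd (iw (fun s => s) L.wd)))) []).isEmpty

theorem chk_sound (H : World D f) {W : List ℕ} {L : Law} {p : List ℕ} {o : Bool} (h : chk W L p o = true) :
    ev f W = 1 := by
  simp only [chk, Bool.and_eq_true, List.isEmpty_iff] at h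
  have h1 := L.sound H h.1
  have h2 := ev_fr (iv := fun s => s) H.inv
    (iw (fun s => s) p ++ (W ++ (p ++ cond o L.wd (iw (fun s => s) L.wd)))) []
  rw [h.2] at h2
  have h3 : ev f (cond o L.wd (iw (fun s => s) L.wd)) = 1 := by
    cases o with
    | true => exact h1
    | false => rw [cond_false, ev_iw (iv := fun s => s) H.inv, h1, inv_one]
  simp only [List.reverse_nil, ev, one_mul, ev_append, h3, mul_one, ev_iw (iv := fun s => s) H.inv] at h2
  have h4 : ev f W = ev f p * ((ev f p)⁻¹ * (ev f W * ev f p)) * (ev f p)⁻¹ := by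
    simp only [mul_assoc, mul_inv_cancel, mul_one, mul_inv_cancel_left]
  rw [h4, ← h2, mul_one, mul_inv_cancel]

end Pool.Agent.Helper68.ZL
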