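import Pool.Agent.Helper68.ZL.ZData

/-!
# Lemma Z

Let `D` be a normal set of involutions (and `1`) with `(x y)⁴ = 1` for `x, y ∈ D`.

`lemmaZ`: if `a, b, c, d ∈ D` and `a c, a d ∈ D` then `[x^c, x^d] = 1` for `x = a^b`.
No closure under commutators is needed. If `D` is closed under commutators then `a · a^b = [a, b] ∈ D` and the lemma says that the conjugates `a^b`,
`b ∈ D`, form a strong class in the centralizer of `a`.
-/

set_option autoImplicit false

namespace Pool.Agent.Helper68.ZL

open Pool.Agent.Helper94.SV.Frame (DLaw)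
open Pool.Agent.Helper96.SV (ev)

universe u

variable {G : Type u} [Group G]

/-- four letters -/
def f4 (a b c d : G) : ℕ → G
  | 0 => a
  | 1 => b
  | 2 => c
  | 3 => d
  | _ => 1

theorem world4 {D : Set G} (hD : DLaw D) {a b c d : G} (ha : a ∈ D) (hb : b ∈ D) (hc : c ∈ D) (hd : d ∈ D)
    (hac : a * c ∈ D) (had : a * d ∈ D) : World D (f4 a b c d) where
  law := hD
  mem := by
    intro s
    match s with
    | 0 => exact ha
    | 1 => exact hb
    | 2 => exact hc
    | 3 => exact hd
    | (n + 4) => exact hD.one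
  p2 := hac
  p3 := had

/-- Lemma Z -/
theorem lemmaZ {D : Set G} (hD : DLaw D) {a b c d : G} (ha : a ∈ D) (hb : b ∈ D) (hc : c ∈ D) (hd : d ∈ D)
    (hac : a * c ∈ D) (had : a * d ∈ D) : Commute (c * (b * a * b) * c) (d * (b * a * b) * d) := by
  have haa := hD.inv a ha
  have hbb := hD.inv b hb
  have hcc := hD.inv c hc
  have hdd := hD.inv d hd
  have hca : a * c = c * a := by
    have h := hD.inv _ hac
    have h1 : a * c = (a * c)⁻¹ := eq_inv_of_mul_eq_one_left h
    rwa [mul_inv_rev, inv_eq_of_mul_eq_one_left hcc, inv_eq_of_mul_eq_one_left haa] at h1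
  have hda : a * d = d * a := by
    have h := hD.inv _ had
    have h1 : a * d = (a * d)⁻¹ := eq_inv_of_mul_eq_one_left h
    rwa [mul_inv_rev, inv_eq_of_mul_eq_one_left hdd, inv_eq_of_mul_eq_one_left haa] at h1
  have H := world4 hD ha hb hc hd hac had
  have H' := world4 hD ha hD.one hc hd hac had (b := 1)
  have h := ZData.main (f4 a b c d) (f4 a 1 c d) H H' (by
    intro k hk
    have := ZData.base_words k hk
    simp only [List.mem_cons, List.not_mem_nil, or_false] at this
    rcases this with h | h | h | h <;> rw [h] <;> simp [ev, f4])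
  have cc : ∀ x : G, ∀ y : G, x * x = 1 → x * (x * y) = y := fun x y hx => by rw [← mul_assoc, hx, one_mul]
  have e1 : ev (f4 a 1 c d) ZData.tgt = 1 := by
    have hc2 : c * (a * c) = a := by rw [hca, ← mul_assoc, hcc, one_mul]
    have hd2 : d * (a * d) = a := by rw [hda, ← mul_assoc, hdd, one_mul]
    have hc3 : ∀ y, c * (a * (c * y)) = a * y := fun y => by
      rw [← mul_assoc a, ← mul_assoc c, hc2]
    simp only [ZData.tgt, ev, f4, mul_one, one_mul, hc3, hd2, haa]
  rw [e1] at h
  have e2 : ev (f4 a b c d) ZData.tgt =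
      (c * (b * a * b) * c) * (d * (b * a * b) * d) * ((c * (b * a * b) * c) * (d * (b * a * b) * d)) := by
    simp only [ZData.tgt, ev, f4, mul_one, mul_assoc]
  rw [e2] at h
  set p := c * (b * a * b) * c with hp
  set q := d * (b * a * b) * d with hq
  have hpp : p * p = 1 := by
    rw [hp]
    simp only [mul_assoc, cc _ _ haa, cc _ _ hbb, cc _ _ hcc, hcc]
  have hqq : q * q = 1 := by
    rw [hq]
    simp only [mul_assoc, cc _ _ haa, cc _ _ hbb, cc _ _ hdd, hdd]
  show p * q = q * p
  have h4 : p * q = (p * q)⁻¹ := eq_inv_of_mul_eq_one_left h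
  rw [h4, mul_inv_rev, inv_eq_of_mul_eq_one_left hpp, inv_eq_of_mul_eq_one_left hqq]

end Pool.Agent.Helper68.ZL
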