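import Pool.Agent.Helper68.ZL.Rel

/-!
# The certificate of Lemma Z
-/

set_option autoImplicit false

namespace Pool.Agent.Helper68.ZL.ZData

open Pool.Agent.Helper68.ZL

open Pool.Agent.Helper96.SV (ev act2 run_act2 act2_act2 edge target_sound)

open Pool.Agent.Helper89.SV (allB allB_spec tr)

/-- the table: entry `4 i + s` (16 bits) is the end point and the time stamp of the edge `(i, s)` -/
def tab : ℕ := 0x1737ff00003612371738ff0000351238ff00003300380834ff00ff0000370031ff00002e10300836ff000036ff00002eff00ff00002b152dff00142c002a00350029ff0010340b2a1628ff00ff000028ff00003400270033ff000026ff001532ff0014310025ff001823002100320f2b0020ff0000310b300030ff00ff000020162fff00001f002f001dff00002eff00ff00002d001dff000024ff00002cff000025ff000019ff00182bff000018ff00ff000018ff000619ff00002b00171121002aff00001b0029ff00071a0028001bff000517ff0000160027ff0000260015ff0000150d16ff00ff0000140020001fff00071fff000014ff00001200240622ff00002200230012ff00051e00210011ff0000110d1c001eff00001c0010001dff00001b000f001aff00000c0c0dff00ff000019000b0018ff000016000a0017ff0000090015ff00130dff000014000e0008ff00ff00000f130f00080c130e08ff0000130007ff000007ff000012ff00ff0000060011ff00ff0000100006ff00000e000d00050e0d000b0004000cff000004000a00090a06ff000002000804030006000700020904ff000001ff000405ff00000500040001ff000003000000020300010000010200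

/-- the tree: entry `i` (16 bits) is the parent of the point `i` and the letter -/
def prs : ℕ := 0x136013502330031022e002e012b012a03290028012702260125022103200020011f031d011d03240119011802180117011b001b0016001502150214001402120012001102110110010f020c010b010a0209000e030802080107030702060106010502040304020201020201000101000000

/-- the deductions: point, word, position -/
def ded : ℕ := 0x11082b140a380b092803042d09063101010d0402380000210b073008052b06040d04031c04031302013002010604020402003601001a020022010017020005000d00000c00000b00000000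

/-- the words -/
def wds : List (List ℕ) := [[0, 2, 0, 2],
  [0, 3, 0, 3],
  [0, 1, 0, 1, 0, 1, 0, 1],
  [1, 2, 1, 2, 1, 2, 1, 2],
  [0, 1, 2, 0, 1, 2, 0, 1, 2, 0, 1, 2],
  [0, 2, 1, 2, 0, 2, 1, 2, 0, 2, 1, 2, 0, 2, 1, 2],
  [1, 2, 1, 3, 1, 2, 1, 3, 1, 2, 1, 3, 1, 2, 1, 3],
  [0, 1, 2, 1, 3, 0, 1, 2, 1, 3, 0, 1, 2, 1, 3, 0, 1, 2, 1, 3],
  [0, 1, 3, 1, 2, 0, 1, 3, 1, 2, 0, 1, 3, 1, 2, 0, 1, 3, 1, 2],
  [0, 1, 2, 0, 1, 3, 0, 1, 2, 0, 1, 3, 0, 1, 2, 0, 1, 3, 0, 1, 2, 0, 1, 3],
  [0, 1, 2, 0, 2, 1, 3, 0, 1, 2, 0, 2, 1, 3, 0, 1, 2, 0, 2, 1, 3, 0, 1, 2, 0, 2, 1, 3],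
  [2],
  [0],
  [3]]

/-- the laws behind the words, with the conjugating words -/
def crt : List (Law × List ℕ × Bool) := [(.sq (.q 2), [], false),
  (.sq (.q 3), [], false),
  (.two (.l 1) (.l 0), [], true),
  (.two (.l 2) (.l 1), [], true),
  (.two (.q 2) (.l 1), [2, 1], true),
  (.two (.j 2 (.l 0)) (.l 1), [2], false),
  (.two (.j 1 (.l 2)) (.l 3), [], false),
  (.two (.j 1 (.l 2)) (.q 3), [3], true),
  (.two (.j 1 (.l 3)) (.q 2), [2], true),
  (.two (.j 1 (.q 2)) (.q 3), [3], true),
  (.two (.j 1 (.q 3)) (.j 2 (.l 0)), [3, 1, 2, 0, 2], true)]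

/-- the end point of an edge -/
def tT (i s : ℕ) : ℕ := (tab >>> (16 * (4 * i + s))) % 256

/-- the time stamp of an edge -/
def tS (i s : ℕ) : ℕ := (tab >>> (16 * (4 * i + s) + 8)) % 256

/-- the parent of a point -/
def tP (i : ℕ) : ℕ := (prs >>> (16 * i)) % 256

/-- the letter from the parent -/
def tL (i : ℕ) : ℕ := (prs >>> (16 * i + 8)) % 256

/-- the point of a deduction -/
def dI (n : ℕ) : ℕ := (ded >>> (24 * n)) % 256

/-- the word of a deduction -/
def dK (n : ℕ) : ℕ := (ded >>> (24 * n + 8)) % 256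

/-- the position of a deduction -/
def dR (n : ℕ) : ℕ := (ded >>> (24 * n + 16)) % 256

/-- the word number `k` -/
def Wk (k : ℕ) : List ℕ := wds.getD k []

/-- inverse letters -/
def iv (s : ℕ) : ℕ := s

theorem chk_crt : (List.range 11).all (fun k => chk (Wk k) (crt.getD k (.sq (.l 0), [], true)).1
    (crt.getD k (.sq (.l 0), [], true)).2.1 (crt.getD k (.sq (.l 0), [], true)).2.2) = true := by
  decide +kernel

theorem chk_edges : allB (fun i => allB (fun s => edge tT tS tP tL iv Wk 11 4 25 dI dK dR i s) 4) 57 = true := by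
  decide +kernel

theorem chk_par : allB (fun i => cond (Nat.beq i 0) true (Nat.blt (tP i) i)) 57 = true := by
  decide +kernel

theorem chk_lt : allB (fun i => allB (fun s => Nat.blt (tT i s) 57) 4) 57 = true := by
  decide +kernel

/-- the target -/
def tgt : List ℕ := [2, 1, 0, 1, 2, 3, 1, 0, 1, 3, 2, 1, 0, 1, 2, 3, 1, 0, 1, 3]

theorem chk_target : tr tT tS 25 0 tgt 0 = true := by
  decide +kernel

theorem tT_lt : ∀ i < 57, ∀ s < 4, tT i s < 57 := by
  intro i hi s hs
  have h := allB_spec (allB_spec chk_lt i hi) s hs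
  simpa [Nat.blt_eq] using h

theorem tP_lt : ∀ j < 57, 0 < j → tP j < j := by
  intro j hj hpos
  have h := allB_spec chk_par j hj
  have h0 : Nat.beq j 0 = false := by
    cases hb : Nat.beq j 0 with
    | false => rfl
    | true =>
      have := Nat.eq_of_beq_eq_true hb
      omega
  simp only [h0, cond_false] at h
  simpa [Nat.blt_eq] using h

theorem edge_all : ∀ i < 57, ∀ s < 4, edge tT tS tP tL iv Wk 11 4 25 dI dK dR i s = true :=
  fun i hi s hs => allB_spec (allB_spec chk_edges i hi) s hs

theorem wds_letters : ∀ w ∈ wds, ∀ s ∈ w, s < 4 := by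
  decide +kernel

theorem Wk_letters (k : ℕ) : ∀ s ∈ Wk k, s < 4 := by
  rcases lt_or_ge k wds.length with hk | hk
  · rw [Wk, List.getD_eq_getElem _ _ hk]
    exact wds_letters _ (List.getElem_mem hk)
  · rw [Wk, List.getD_eq_default _ _ hk]
    simp

theorem crt_all : ∀ k < 11, chk (Wk k) (crt.getD k (.sq (.l 0), [], true)).1 (crt.getD k (.sq (.l 0), [], true)).2.1
    (crt.getD k (.sq (.l 0), [], true)).2.2 = true := by
  intro k hk
  exact List.all_eq_true.1 chk_crt k (List.mem_range.2 hk)

universe u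

/-- the certificate: the target takes the same value on `f'` and `f` -/
theorem main {G : Type u} [Group G] {D D' : Set G} (f f' : ℕ → G) (H : World D f)
    (H' : World D' f') (hb : ∀ k, 11 ≤ k → ev f (Wk k) = ev f' (Wk k)) : ev f tgt = ev f' tgt := by
  have hrel : ∀ k < 11, ∀ x, Pool.Agent.Helper89.SV.run (act2 f' f) (Wk k) x = x := by
    intro k hk x
    rw [run_act2, chk_sound H (crt_all k hk), chk_sound H' (crt_all k hk)]
    simp
  have hbase : ∀ k, 11 ≤ k → Pool.Agent.Helper89.SV.run (act2 f' f) (Wk k) 1 = 1 := by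
    intro k hk
    rw [run_act2, hb k hk]
    simp
  have h := target_sound (act2 f' f) iv (fun s x => act2_act2 (iv := iv) H'.inv H.inv s x) 4 (by decide) (by decide) 1 tT tS tP tL
    57 25 Wk 11 dI dK dR tT_lt tP_lt Wk_letters hrel hbase edge_all (by norm_num) tgt (by decide) chk_target
  rw [run_act2, mul_one] at h
  exact (inv_mul_eq_one.1 h).symm

/-- the words for the subgroup -/
theorem base_words : ∀ k, 11 ≤ k → Wk k ∈ [[], [2], [0], [3]] := by
  intro k hk
  rcases lt_or_ge k 14 with h | h
  · interval_cases k <;> decide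
  · rw [Wk, List.getD_eq_default _ _ (by exact h)]
    simp

end Pool.Agent.Helper68.ZL.ZData
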